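import Pool.Agent.TH138.LG.Conv

set_option autoImplicit false

/-!
# Lang's conjecture for points whose digits form a language

`X` is the integral closed subvariety of projective `n`-space over a field `k` of characteristic
zero given by the homogeneous polynomials in `FF`.

Number systems.  Let `L` be a field containing `k` and `b ∈ L` an element which is not zero and not
a root of unity, the base.  A word in the letters of an alphabet `A` and the separator `none` is read
from the left to the right, starting with the vector `0` in phase `0`.  In phase `i` the coordinates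
`x j` with `act i j = true` are active: a letter `a` replaces each of them by `b * x j + δ i a j`,
where the digits `δ i a j ∈ L` are arbitrary, and the other coordinates remain; the separator starts
the next phase.  The vector after the last letter is `value b act δ w`.  For example the digits of
all the coordinates can be read in parallel, or one coordinate after the other, separated by
separators, or for each coordinate a numerator and a denominator.

A language `𝓛` is `s`-iterative (`Iterative s p 𝓛`) if each of its words `w` of length at least `p`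
is of the form `u v₁ u₁ ⋯ v_s u_s`, with `v₁, …, v_s` not all empty, so that all the words
`u v₁ᵏ u₁ ⋯ v_sᵏ u_s`, `k ≥ 0`, belong to `𝓛`.  By the pumping lemmas all context-free languages are
`2`-iterative (proved in the third part of the theorem, with an explicit `p`), and the languages of
more general grammars are `s`-iterative for larger `s`.

(1) If `X` is not uniruled (for instance if `X` is of general type), then for each `s` there is ONE
hypersurface `G = 0` not containing `X` such that for ALL fields `L ⊇ k`, all number systems as
above and all `s`-iterative languages whose words have a bounded number of separators and represent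
points of `X`: the points of `X` outside `G = 0` which are represented by words of the language are
represented by its words of length less than `p`.  So for finite alphabets they are finite in number.

(2) If `X` is uniruled, then there are a field `L ⊇ k`, a finite set of vectors of digits, and an
iterative language for the base `2` whose words all represent points of `X` and represent infinitely
many points outside of each hypersurface not containing `X`.
-/

namespace Pool.Agent.Results.MP_2ae8fe_ag.DigitLanguages

open MvPolynomial Pool.Agent.H533R3.SL Pool.Agent.TH138.LG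

variable {k L A : Type} [Field k] [Field L] [Algebra k L] {n : ℕ}

/-- The words of `𝓛` contain a bounded number of separators, and all of them represent points of the
variety given by the polynomials in `FF`. -/
def LanguageOn (FF : Finset (MvPolynomial (Fin (n + 1)) k)) (b : L)
    (act : ℕ → Fin (n + 1) → Bool) (δ : ℕ → A → Fin (n + 1) → L)
    (𝓛 : Set (List (Option A))) : Prop :=
  (∃ m : ℕ, ∀ w ∈ 𝓛, w.countP Option.isNone ≤ m) ∧
    ∀ w ∈ 𝓛, value b act δ w ≠ 0 ∧ ∀ F ∈ FF, aeval (value b act δ w) F = 0

theorem result (k : Type) [Field k] [CharZero k] (n : ℕ)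
    (FF : Finset (MvPolynomial (Fin (n + 1)) k))
    (hprime : (Ideal.span (FF : Set (MvPolynomial (Fin (n + 1)) k))).IsPrime)
    (hhom : ∀ F ∈ FF, ∃ e, F.IsHomogeneous e) :
    (¬ Uniruled (Ideal.span (FF : Set (MvPolynomial (Fin (n + 1)) k))) →
      ∀ s : ℕ, ∃ G : MvPolynomial (Fin (n + 1)) k, (∃ e, G.IsHomogeneous e) ∧
        G ∉ Ideal.span (FF : Set (MvPolynomial (Fin (n + 1)) k)) ∧
        ∀ (L : Type) [Field L] [Algebra k L] (b : L), b ≠ 0 → (∀ m : ℕ, 0 < m → b ^ m ≠ 1) →
          ∀ (A : Type) (act : ℕ → Fin (n + 1) → Bool) (δ : ℕ → A → Fin (n + 1) → L) (p : ℕ)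
            (𝓛 : Set (List (Option A))), Iterative s p 𝓛 → LanguageOn FF b act δ 𝓛 →
            offPts b act δ 𝓛 G = offPts b act δ {w | w ∈ 𝓛 ∧ w.length < p} G ∧
            (Finite A → (offPts b act δ 𝓛 G).Finite)) ∧
    (Uniruled (Ideal.span (FF : Set (MvPolynomial (Fin (n + 1)) k))) →
      ∃ (L : Type) (_ : Field L) (_ : Algebra k L) (A : Type) (_ : Finite A)
        (δ : ℕ → A → Fin (n + 1) → L) (s p : ℕ) (𝓛 : Set (List (Option A))),
        (∀ m : ℕ, 0 < m → (2 : L) ^ m ≠ 1) ∧ Iterative s p 𝓛 ∧
        LanguageOn FF (2 : L) (fun _ _ => true) δ 𝓛 ∧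
        ∀ G : MvPolynomial (Fin (n + 1)) k, (∃ e, G.IsHomogeneous e) →
          G ∉ Ideal.span (FF : Set (MvPolynomial (Fin (n + 1)) k)) →
          (offPts (2 : L) (fun _ _ => true) δ 𝓛 G).Infinite) ∧
    ∀ (T : Type) (g : ContextFreeGrammar T),
      Iterative 2 (width g ^ (inputs g).card + 1) g.language := by
  classical
  refine ⟨fun hnu s => ?_, fun hu => ?_, fun T g => iterative_of_grammar g⟩
  · choose E hE using hhom
    set d : ℕ := 1 + ∑ F : FF, E F.1 F.2 with hd
    obtain ⟨G, ⟨e, hG1⟩, hG2, hG3⟩ := exists_hyper
      (FF : Set (MvPolynomial (Fin (n + 1)) k)) hprime hnu d (by omega) (by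
        intro F hF
        refine ⟨E F hF, ?_, hE F hF⟩
        have h1 := Finset.single_le_sum (f := fun F : FF => E F.1 F.2) (fun _ _ => Nat.zero_le _)
          (Finset.mem_univ (⟨F, hF⟩ : FF))
        have h2 : E F hF ≤ ∑ F : FF, E F.1 F.2 := h1
        omega) (2 ^ s)
    refine ⟨G, ⟨e, hG1⟩, hG2, ?_⟩
    intro L _ _ b hb0 hb A act δ p 𝓛 hit hon
    have h1 := points_short (FF : Set (MvPolynomial (Fin (n + 1)) k)) s p G e hG1
      (fun c l => hG3 L c l) b hb0 hb act δ 𝓛 hon.1 hon.2 hit
    refine ⟨h1, fun hA => ?_⟩
    rw [h1]
    exact offPts_finite b act δ 𝓛 p G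
  · obtain ⟨L, hL, hA, A, hf, δ, s, p, 𝓛, h1, h2, h3, h4⟩ := dense_language _ hu
    haveI : CharZero L := charZero_of_injective_algebraMap (algebraMap k L).injective
    refine ⟨L, hL, hA, A, hf, δ, s, p, 𝓛, ?_, h1, ⟨⟨0, fun w hw => (h2 w hw).le⟩, ?_⟩, h4⟩
    · intro m hm h
      have h5 : ((2 ^ m : ℕ) : L) = ((1 : ℕ) : L) := by push_cast; exact h
      have h6 : 2 ^ m = 1 := Nat.cast_injective h5
      have h7 : 1 < 2 ^ m := Nat.one_lt_two_pow (by omega)
      omega
    · intro w hw
      exact ⟨(h3 w hw).1, fun F hF => (h3 w hw).2 F (Ideal.subset_span hF)⟩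

end Pool.Agent.Results.MP_2ae8fe_ag.DigitLanguages
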