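import Pool.Agent.W659.FD.Main
import Pool.Agent.Helper203.Win.Multi

/-!
# All fibres over short boxes of individual double covers of `A × 𝔸ⁿ` have no rational point

`E_i : y² = x³ + a_i x + b_i` (`i = 1, …, r`) are elliptic curves over `ℚ` with complex multiplication, of arbitrary rank,
`A = E_1 × … × E_r`, and `F(V; t)` is a polynomial with integer coefficients in the homogeneous coordinates of the plane
cubics `E_i` and in parameters `t = (t_1, …, t_n)`, multihomogeneous of even degree `d_i` in `V_i`, which for no complex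
point `P` of `A` is a square in `t`. The double cover `𝒳 : w² = F(P; t)` of `A × 𝔸ⁿ` has the fibres `𝒳_t`, `t ∈ ℤⁿ`, which
are double covers of `A`. Let `v_k ≥ 1` be a sequence with exponent of convergence at most `τ` (`τ = 0` for `b ^ k`,
`τ = 1 / c` for `k ^ c`) and `θ < 1`.

Theorem: for all `α ∈ ℝⁿ` outside a set of Hausdorff dimension at most `(n - 1/5 + τ) / (1 - θ)` and all large `k` NONE
of the fibres `𝒳_t` with `|t_j - α_j v_k| ≤ v_k ^ θ` for all `j` has a rational point. So all the rational points of `𝒳`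
with integral parameters avoid whole boxes around the points of almost all geometric progressions `α b ^ k`, although
`A(ℚ)` is infinite; the exceptional directions have dimension less than `n` as soon as `n θ < 1/5 - τ`.

Proof: the number of the `t ∈ ℤⁿ`, `|t_j| ≤ H`, for which `𝒳_t` has a rational point is `O(H^(n - 1/5 + ε))` (starting
library, `Pool.Agent.W659.FD`, used by the hand-in FibresWithoutPoints), and a covering argument in `ℝⁿ`.
-/

set_option autoImplicit false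

namespace Pool.Agent.Results.MP_2ae8fe_ag.FibresInWindows

open MvPolynomial Pool.Agent.W659.FD

/-- the exponent of convergence of the sequence `v` is at most `τ` -/
def ExpLe (v : ℕ → ℝ) (τ : ℝ) : Prop := ∀ t : ℝ, τ < t → Summable fun n : ℕ => (v n) ^ (-t)

/-- for all `α ∈ ℝⁿ` outside a set of Hausdorff dimension at most `(s + τ) / (1 - θ)` and all large `k` no `t ∈ ℤⁿ` with
`|t_j - α_j v_k| ≤ v_k ^ θ` for all `j` has the property `P` -/
def NoneInBoxes {n : ℕ} (P : (Fin n → ℤ) → Prop) (v : ℕ → ℝ) (s τ θ : ℝ) : Prop :=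
  ∃ X : Set (Fin n → ℝ), dimH X ≤ ENNReal.ofReal ((s + τ) / (1 - θ)) ∧ ∀ α : Fin n → ℝ, α ∉ X →
    ∃ k0 : ℕ, ∀ k : ℕ, k0 ≤ k → ∀ t : Fin n → ℤ, (∀ j, |(t j : ℝ) - α j * v k| ≤ (v k) ^ θ) → ¬ P t

/-- the double cover `w² = F(P; t)` of `E_1 × … × E_r` has a rational point -/
def HasPoint {r n : ℕ} (a b : Fin r → ℤ) (F : Poly r n) (t : Fin n → ℤ) : Prop :=
  ∃ (V : Fin r → Fin 3 → ℚ) (w : ℚ), (∀ i, OnE (a i) (b i) (V i)) ∧ w ^ 2 = val F V (fun k => (t k : ℚ))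

theorem none_of {n : ℕ} (P : (Fin n → ℤ) → Prop) {s : ℝ} (hs : 0 ≤ s)
    (h : ∀ ε : ℝ, 0 < ε → ∃ C : ℝ, ∀ H : ℕ, 1 ≤ H →
      (({t : Fin n → ℤ | (∀ k, |t k| ≤ H) ∧ P t}.ncard : ℕ) : ℝ) ≤ C * (H : ℝ) ^ (s + ε))
    {v : ℕ → ℝ} {τ θ : ℝ} (hpos : ∀ n, 1 ≤ v n) (hτ : 0 ≤ τ) (hv : ExpLe v τ) (hθ : θ < 1) :
    NoneInBoxes P v s τ θ := by
  refine Pool.Agent.Helper203.Win.windowsZ {t : Fin n → ℤ | P t} hpos hτ hv hs hθ fun ε hε => ?_
  obtain ⟨C, hC⟩ := h ε hε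
  refine ⟨C, fun H hH => ?_⟩
  have e : {t : Fin n → ℤ | t ∈ {t : Fin n → ℤ | P t} ∧ ∀ k, |t k| ≤ (H : ℤ)} =
      {t : Fin n → ℤ | (∀ k, |t k| ≤ (H : ℤ)) ∧ P t} := by
    ext t
    exact and_comm
  rw [e]
  exact hC H hH

/-- `v_k ≥ 1` a sequence with exponent of convergence at most `τ`, `θ < 1`. For all `α ∈ ℝⁿ` outside a set of Hausdorff
dimension at most `(n - 1/5 + τ) / (1 - θ)` and all large `k`, no `t ∈ ℤⁿ` with `|t_j - α_j v_k| ≤ v_k ^ θ` for all `j` is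
such that the double cover `w² = F(P; t)` of `E_1 × … × E_r` has a rational point. This is proved: (1) if `E_i` is
supersingular at all primes `p ≡ -1 mod M`, `p ∤ D`, and for these `p` and all points `P` over `𝔽_p` the polynomial
`F(P; t)` is not a constant times a square; (2) if `E_i : y² = x³ + a_i x` or `y² = x³ + b_i` and for no complex point `P`
the polynomial `F(P; t)` is a square; (3) for `n = 2` and the explicit class
`w² = t₀ t₁ ∑_j f_j(P) t₀^(2(k-j)) t₁^(2j)`, where `f_0, …, f_k` are arbitrary forms of the same even multidegree without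
common zero on `A(ℂ)`. (4) The sequences `(k + 1) ^ c` and `b ^ k` have exponent of convergence `1 / c` and `0`. -/
theorem result :
    (∀ (r n : ℕ), 1 ≤ n → ∀ (a b : Fin r → ℤ) (M D : ℕ), 0 < M → 0 < D →
      (∀ i, 4 * a i ^ 3 + 27 * b i ^ 2 ≠ 0) →
      (∀ i, ∀ p : ℕ, p.Prime → ¬ p ∣ D → M ∣ p + 1 →
        Nat.card {z : ZMod p × ZMod p // z.2 ^ 2 = z.1 ^ 3 + a i * z.1 + b i} = p) →
      ∀ (F : Poly r n) (d : Fin r → ℕ), (∀ i, Even (d i)) → MultiHomog F d →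
      (∀ (p : ℕ) [Fact p.Prime], ¬ p ∣ D → M ∣ p + 1 →
        ∀ V : Fin r → Fin 3 → ZMod p, (∀ i, OnE (a i) (b i) (V i)) →
          ∀ (c : ZMod p) (g : MvPolynomial (Fin n) (ZMod p)), spec F V ≠ C c * g ^ 2) →
      ∀ (v : ℕ → ℝ) (τ θ : ℝ), (∀ k, 1 ≤ v k) → 0 ≤ τ → ExpLe v τ → θ < 1 →
        NoneInBoxes (HasPoint a b F) v ((n : ℝ) - 1 / 5) τ θ) ∧
    (∀ (r n : ℕ), 1 ≤ n → ∀ (a b : Fin r → ℤ), (∀ i, a i * b i = 0 ∧ (a i ≠ 0 ∨ b i ≠ 0)) →
      ∀ (F : Poly r n) (d : Fin r → ℕ), (∀ i, Even (d i)) → MultiHomog F d →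
      (∀ V : Fin r → Fin 3 → ℂ, (∀ i, OnE (a i) (b i) (V i)) →
        ∀ g : MvPolynomial (Fin n) ℂ, spec F V ≠ g ^ 2) →
      ∀ (v : ℕ → ℝ) (τ θ : ℝ), (∀ k, 1 ≤ v k) → 0 ≤ τ → ExpLe v τ → θ < 1 →
        NoneInBoxes (HasPoint a b F) v ((n : ℝ) - 1 / 5) τ θ) ∧
    (∀ (r k : ℕ) (a b : Fin r → ℤ), (∀ i, a i * b i = 0 ∧ (a i ≠ 0 ∨ b i ≠ 0)) →
      ∀ (f : Fin (k + 1) → MvPolynomial (Fin r × Fin 3) ℤ) (d : Fin r → ℕ), (∀ i, Even (d i)) →
      (∀ s, ∀ e ∈ (f s).support, ∀ i, ∑ j, e (i, j) = d i) →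
      (∀ V : Fin r → Fin 3 → ℂ, (∀ i, OnE (a i) (b i) (V i)) →
        ∃ s, aeval (fun ij : Fin r × Fin 3 => V ij.1 ij.2) (f s) ≠ 0) →
      ∀ (v : ℕ → ℝ) (τ θ : ℝ), (∀ k, 1 ≤ v k) → 0 ≤ τ → ExpLe v τ → θ < 1 →
        NoneInBoxes (fun t : Fin 2 → ℤ => ∃ (V : Fin r → Fin 3 → ℚ) (w : ℚ),
          (∀ i, OnE (a i) (b i) (V i)) ∧ w ^ 2 = (t 0 : ℚ) * (t 1 : ℚ) *
            ∑ j : Fin (k + 1), aeval (fun ij : Fin r × Fin 3 => V ij.1 ij.2) (f j) *
              ((t 0 : ℚ) ^ (2 * (k - (j : ℕ))) * (t 1 : ℚ) ^ (2 * (j : ℕ)))) v (2 - 1 / 5) τ θ) ∧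
    (∀ c : ℝ, 0 < c → ExpLe (fun k : ℕ => ((k : ℝ) + 1) ^ c) (1 / c)) ∧
    (∀ b : ℝ, 1 < b → ExpLe (fun k : ℕ => b ^ k) 0) := by
  refine ⟨?_, ?_, ?_, Pool.Agent.Y854.GM.expLe_pow, Pool.Agent.Y854.GM.expLe_geom⟩
  · intro r n hn a b M D hM hD h1 h2 F d hd hF h3 v τ θ hpos hτ hv hθ
    have hn1 : (1 : ℝ) ≤ n := by exact_mod_cast hn
    exact none_of _ (by linarith) (fun ε hε => main1 r n hn a b M D hM hD h1 h2 F d hd hF h3 ε hε) hpos hτ hv hθ
  · intro r n hn a b hab F d hd hF h3 v τ θ hpos hτ hv hθ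
    have hn1 : (1 : ℝ) ≤ n := by exact_mod_cast hn
    exact none_of _ (by linarith) (fun ε hε => main2 r n hn a b hab F d hd hF h3 ε hε) hpos hτ hv hθ
  · intro r k a b hab f d hd hf hz v τ θ hpos hτ hv hθ
    refine none_of _ (by norm_num) (fun ε hε => ?_) hpos hτ hv hθ
    obtain ⟨C₀, hC⟩ := main2 r 2 (by norm_num) a b hab (exPoly f) d hd (exPoly_homog f d hf)
      (fun V hV g => spec_exPoly_ne f V (hz V hV) g) ε hε
    refine ⟨C₀, fun H hH => ?_⟩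
    have h := hC H hH
    refine le_trans (le_of_eq ?_) h
    congr 2
    ext t
    simp only [Set.mem_ofPred_eq]
    refine and_congr_right fun _ => ?_
    refine exists_congr fun V => exists_congr fun w => and_congr_right fun _ => ?_
    rw [val_exPoly]

end Pool.Agent.Results.MP_2ae8fe_ag.FibresInWindows
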