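import Pool.Agent.H901R3.MS.AllPS
import Pool.Agent.Helper203.Win.Multi

/-!
# All twists in short windows of an even cyclic cover of a product of CM elliptic curves have no rational point

`E_i : y² = x³ + a_i x` or `y² = x³ + b_i` (`i = 1, …, r`) are elliptic curves over `ℚ` of arbitrary rank, `m` is even and
`F` is a form with integer coefficients of multidegree `(d_1, …, d_r)`, `m ∣ d_i`, in the homogeneous coordinates of the
`r` plane cubics, which has no zero on `E_1 × … × E_r` modulo `p` for all large primes `p ≡ -1 (mod M)`, for some `M`. Let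
`X_D : w ^ m = D F(P_1, …, P_r)`, `P_i ∈ E_i`, be the twists of the cyclic cover `w ^ m = F`. Let `v_n ≥ 1` be a sequence
with exponent of convergence at most `τ` (`τ = 0` for `v_n = b ^ n` or `n!`, `τ = 1 / c` for `v_n = n ^ c`), `θ < 1`. For
all real `α` outside a set of Hausdorff dimension at most `(3/4 + τ) / (1 - θ)` and all large `n` NONE of the twists `X_D`
with `|D - α v_n| ≤ v_n ^ θ` has a rational point. For `τ = 0` this is a result for almost all `α` as soon as `θ < 1/4`.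

Proof: the number of the `|D| ≤ N` for which `X_D` has a rational point is `O(N ^ (3/4 + ε))` (`twist_of` of helper901),
and the covering argument of `Pool.Agent.Y854.GM.WinV` (helper854).
-/

set_option autoImplicit false

namespace Pool.Agent.Results.MP_2ae8fe_ag.TwistsInWindows

open Pool.Agent.H901R3.MS

/-- the exponent of convergence of the sequence `v` is at most `τ` -/
def ExpLe (v : ℕ → ℝ) (τ : ℝ) : Prop := ∀ t : ℝ, τ < t → Summable fun n : ℕ => (v n) ^ (-t)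

/-- for all real `α` outside a set of Hausdorff dimension at most `(s + τ) / (1 - θ)` and all large `n` no integer `D`
with `|D - α v_n| ≤ v_n ^ θ` has the property `P` -/
def NoneInWindows (P : ℤ → Prop) (v : ℕ → ℝ) (s τ θ : ℝ) : Prop :=
  ∃ X : Set ℝ, dimH X ≤ ENNReal.ofReal ((s + τ) / (1 - θ)) ∧ ∀ α : ℝ, α ∉ X →
    ∃ n0 : ℕ, ∀ n : ℕ, n0 ≤ n → ∀ D : ℤ, |(D : ℝ) - α * v n| ≤ (v n) ^ θ → ¬ P D

theorem none_of (P : ℤ → Prop) {s : ℝ} (hs : 0 ≤ s)
    (h : ∀ ε : ℝ, 0 < ε → ∃ C : ℝ, ∀ N : ℕ, 1 ≤ N → (({n : ℤ | |n| ≤ N ∧ P n}.ncard : ℕ) : ℝ) ≤ C * (N : ℝ) ^ (s + ε))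
    {v : ℕ → ℝ} {τ θ : ℝ} (hpos : ∀ n, 1 ≤ v n) (hτ : 0 ≤ τ) (hv : ExpLe v τ) (hθ : θ < 1) :
    NoneInWindows P v s τ θ := by
  refine Pool.Agent.Helper203.Win.windowsI {D : ℤ | P D} hpos hτ hv hs hθ fun ε hε => ?_
  obtain ⟨C, hC⟩ := h ε hε
  refine ⟨C, fun H hH => ?_⟩
  have e : {t : ℤ | t ∈ {D : ℤ | P D} ∧ |t| ≤ (H : ℤ)} = {n : ℤ | |n| ≤ (H : ℤ) ∧ P n} := by
    ext t
    exact and_comm
  rw [e]
  exact hC H hH

/-- (1) Let `E_i : y² = x³ + a_i x + b_i` with exactly one of `a_i`, `b_i` different from `0`, let `m` be even and `F` a form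
of multidegree `d` with `m ∣ d_i` such that for all large primes `p` with `M ∣ p + 1` it has no zero on `E_1 × … × E_r`
modulo `p`. Let `v_n ≥ 1` be a sequence with exponent of convergence at most `τ` and `θ < 1`. There is a set `X` of
Hausdorff dimension at most `(3/4 + τ) / (1 - θ)` such that for all real `α` outside `X` and all large `n`, for all integers
`D` with `|D - α v_n| ≤ v_n ^ θ` the variety `w ^ m = D F(P)`, `P ∈ E_1 × … × E_r`, has no rational point. (2) An example in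
every dimension `r`: `w² = D ∏ (y_i² + z_i²)`, `y_i² z_i = x_i³ + a_i x_i z_i²`. (3) The sequences `(n + 1) ^ c` and `b ^ n`
have exponent of convergence `1 / c` and `0`. -/
theorem result :
    (∀ (r : ℕ) (a b : Fin r → ℤ), (∀ i, (b i = 0 ∧ a i ≠ 0) ∨ (a i = 0 ∧ b i ≠ 0)) →
      ∀ m : ℕ, 2 ∣ m → ∀ (F : Expo r →₀ ℤ) (d : Fin r → ℕ), (∀ i, m ∣ d i) → Homog F d →
      ∀ M : ℕ, 1 ≤ M →
      (∃ p₁ : ℕ, ∀ (p : ℕ) (_ : Fact p.Prime), p₁ ≤ p → M ∣ p + 1 →
        ∀ P : (i : Fin r) → Pt (a i : ZMod p) (b i : ZMod p), ev F (fun i => rep (P i)) ≠ 0) →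
      ∀ (v : ℕ → ℝ) (τ θ : ℝ), (∀ n, 1 ≤ v n) → 0 ≤ τ → ExpLe v τ → θ < 1 →
        NoneInWindows (fun D => ∃ (V : Fin r → Fin 3 → ℚ) (w : ℚ),
          (∀ i, OnE (a i) (b i) (V i)) ∧ w ^ m = D * ev F V) v (3 / 4) τ θ) ∧
    (∀ (r : ℕ) (a : Fin r → ℤ), (∀ i, a i ≠ 0) →
      ∀ (v : ℕ → ℝ) (τ θ : ℝ), (∀ n, 1 ≤ v n) → 0 ≤ τ → ExpLe v τ → θ < 1 →
        NoneInWindows (fun D => ∃ (V : Fin r → Fin 3 → ℚ) (w : ℚ),
          (∀ i, OnE (a i) 0 (V i)) ∧ w ^ 2 = D * ∏ i, (V i 1 ^ 2 + V i 2 ^ 2)) v (3 / 4) τ θ) ∧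
    (∀ c : ℝ, 0 < c → ExpLe (fun n : ℕ => ((n : ℝ) + 1) ^ c) (1 / c)) ∧
    (∀ b : ℝ, 1 < b → ExpLe (fun n : ℕ => b ^ n) 0) := by
  refine ⟨?_, ?_, Pool.Agent.Y854.GM.expLe_pow, Pool.Agent.Y854.GM.expLe_geom⟩
  · intro r a b hE m hm F d hd hf M hM hF v τ θ hpos hτ hv hθ
    refine none_of _ (by norm_num) (fun ε hε => ?_) hpos hτ hv hθ
    obtain ⟨p₁, hp₁⟩ := hF
    refine twist_of mainPS r a b hE m hm F d hd hf (12 * M) p₁.factorial (by omega)
      (Nat.factorial_pos _) (dvd_mul_right 12 M) ?_ ε hε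
    intro p hp h1 h2 P
    refine hp₁ p hp ?_ ((dvd_mul_left M 12).trans h2) P
    by_contra h
    exact h1 (Nat.dvd_factorial hp.out.pos (by omega))
  · intro r a ha v τ θ hpos hτ hv hθ
    exact none_of _ (by norm_num) (fun ε hε => twist_exPS mainPS r a ha ε hε) hpos hτ hv hθ

end Pool.Agent.Results.MP_2ae8fe_ag.TwistsInWindows
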