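import Pool.Agent.V1153.IT.Strong

set_option autoImplicit false

/-!
# One closed set and one bound for points given by iterated recurrences

Let `X` be the integral closed subvariety of projective `n`-space over a number field `k` given by
the forms in the finite set `FF`.  We consider families `x(h)` of points of `X(L)`, where `L ⊇ k` is
a field which can be embedded in `ℂ` and `h` is in an arbitrary group `H`, with coordinates given by
iterated linear recurrences: there are invertible matrices `X_1(h), ..., X_s(h)` of size `r` such
that, for all `g` in `H`, the matrix `X_l(g h) X_l(h)⁻¹` is for all `h` a polynomial of degree at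
most `e` in each of the entries of `X_i(h)`, `X_i(h)⁻¹`, `i < l`, and the coordinates of `x(h)` are
such polynomials in the entries of all these matrices.  (For `s = 1` this means the orbits
`M ρ(h) v` of representations `ρ` of `H`; for `s = 2` and `H = ℤ` for instance the solutions of
linear recurrences whose coefficients and inhomogeneous parts are solutions of linear recurrences.)

(1) If `X` is not uniruled (for instance of general type), then for all `s, r, e` there are ONE
form `G` which does not vanish on `X` and ONE number `B` such that for all fields `L` (so for all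
number fields `L ⊇ k`), all groups `H` and all such families of points on `X`: at most `B`
different points `x(h)` are not on `G = 0`.

(2) If `X` is uniruled, then there is a size `r` such that for each form `G` which does not vanish
on `X` a family of this kind with `s = e = 1`, `H = ℤ`, over a number field `L ⊇ k`, has infinitely
many different points on `X` outside of `G = 0`.
-/

namespace Pool.Agent.Results.MP_2ae8fe_ag.UniformIteratedFamilies

open MvPolynomial Pool.Agent.H533R3.SL Pool.Agent.Y377.ST

theorem result (k : Type) [Field k] [NumberField k] (n : ℕ)
    (FF : Finset (MvPolynomial (Fin (n + 1)) k))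
    (hprime : (Ideal.span (FF : Set (MvPolynomial (Fin (n + 1)) k))).IsPrime)
    (hhom : ∀ F ∈ FF, ∃ e, F.IsHomogeneous e) :
    (¬ Uniruled (Ideal.span (FF : Set (MvPolynomial (Fin (n + 1)) k))) → ∀ s r e : ℕ,
      ∃ (G : MvPolynomial (Fin (n + 1)) k) (B : ℕ), (∃ d, G.IsHomogeneous d) ∧
        G ∉ Ideal.span (FF : Set (MvPolynomial (Fin (n + 1)) k)) ∧
        ∀ (L : Type) [Field L] [Algebra k L] (_ : L →+* ℂ) (H : Type) [Group H]
          (x : H → Fin (n + 1) → L), IterVec s r e x →
          (∀ h, ∀ F ∈ FF, MvPolynomial.aeval (x h) F = 0) →
            (ptsOff G x).encard ≤ (B : ℕ∞)) ∧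
    (Uniruled (Ideal.span (FF : Set (MvPolynomial (Fin (n + 1)) k))) → ∃ r : ℕ,
      ∀ G : MvPolynomial (Fin (n + 1)) k, (∃ d, G.IsHomogeneous d) →
        G ∉ Ideal.span (FF : Set (MvPolynomial (Fin (n + 1)) k)) →
        ∃ (L : Type) (_ : Field L) (_ : NumberField L) (_ : Algebra k L)
          (x : Multiplicative ℤ → Fin (n + 1) → L), IterVec 1 r 1 x ∧
          (∀ h, ∀ F ∈ FF, MvPolynomial.aeval (x h) F = 0) ∧ (ptsOff G x).Infinite) := by
  refine ⟨fun hnu s r e => ?_, (strong_iff FF hhom hprime).2⟩
  have hc : Countable k := (Module.finBasis ℚ k).equivFun.injective.countable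
  exact Pool.Agent.V1153.IT.strongB _ hhom hprime hnu s r e

end Pool.Agent.Results.MP_2ae8fe_ag.UniformIteratedFamilies
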